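import Pool.Agent.Helper22.TB.Goals

/-!
# Project TB (MP_74f661_nt), packet AVG
-/

set_option autoImplicit false

open Finset
open scoped Classical
open Pool.Agent.Helper22.TB

namespace Pool.Agent.Helper53.TB

theorem cos_sum (q : ℕ) (a : ℤ) (hq : 0 < q) (hc : IsCoprime a (q : ℤ)) (k : ℕ) :
    ∑ c ∈ range q, Real.cos (2 * Real.pi * a * (c * k : ℕ) / q) = if q ∣ k then (q : ℝ) else 0 := by
  have hq' : (q : ℝ) ≠ 0 := by exact_mod_cast hq.ne'
  have hqC : (q : ℂ) ≠ 0 := by exact_mod_cast hq.ne'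
  have hpi : (Real.pi : ℂ) ≠ 0 := by exact_mod_cast Real.pi_ne_zero
  set ζ : ℂ := Complex.exp (((2 * Real.pi * a * k / q : ℝ) : ℂ) * Complex.I) with hζ
  have h1 : ∀ c : ℕ, Real.cos (2 * Real.pi * a * (c * k : ℕ) / q) = (ζ ^ c).re := by
    intro c
    rw [hζ, ← Complex.exp_nat_mul, ← Complex.exp_ofReal_mul_I_re]
    congr 2
    push_cast
    ring
  have h2 : ∑ c ∈ range q, Real.cos (2 * Real.pi * a * (c * k : ℕ) / q)
      = (∑ c ∈ range q, ζ ^ c).re := by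
    rw [Complex.re_sum]
    exact Finset.sum_congr rfl fun c _ => h1 c
  have h3 : ζ ^ q = 1 := by
    rw [hζ, ← Complex.exp_nat_mul, Complex.exp_eq_one_iff]
    refine ⟨a * k, ?_⟩
    push_cast
    field_simp
  have h4 : ζ = 1 ↔ q ∣ k := by
    rw [hζ, Complex.exp_eq_one_iff]
    constructor
    · rintro ⟨n, hn⟩
      have h5 : ((a * k : ℤ) : ℂ) = ((n * q : ℤ) : ℂ) := by
        push_cast at hn ⊢
        have h6 : (2 * (Real.pi : ℂ) * Complex.I) * (a * k) = (2 * (Real.pi : ℂ) * Complex.I) *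
            (n * q) := by
          field_simp at hn
          linear_combination (2 * (Real.pi : ℂ) * Complex.I) * hn
        exact mul_left_cancel₀ (by simp [Real.pi_ne_zero, Complex.I_ne_zero]) h6
      have h7 : a * k = n * q := by exact_mod_cast h5
      have h8 : (q : ℤ) ∣ a * k := ⟨n, by rw [h7]; ring⟩
      exact_mod_cast hc.symm.dvd_of_dvd_mul_left h8
    · rintro ⟨m, rfl⟩
      refine ⟨a * m, ?_⟩
      push_cast
      field_simp
  rw [h2]
  by_cases hk : q ∣ k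
  · rw [if_pos hk, h4.2 hk]
    simp
  · rw [if_neg hk, geom_sum_eq (fun h => hk (h4.1 h)), h3]
    simp

theorem gAVG : G_AVG := by
  intro hABL hABM hKER q a ρ hodd hc h0 h1
  have hq : 0 < q := hodd.pos
  have hpow0 : 0 ≤ ρ ^ q := pow_nonneg h0 q
  have hpow1 : ρ ^ q < 1 := pow_lt_one₀ h0 h1 hq.ne'
  have e1 := hABL ℕ (range q) (fun _ => 1)
    (fun c k => Real.cos (2 * Real.pi * a * (c * k : ℕ) / q)) ρ h0 h1
    (fun c _ => ⟨1, fun g => Real.abs_cos_le_one _⟩)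
  simp only [one_mul] at e1
  rw [← e1]
  have e2 : (fun g : ℕ => ∑ c ∈ range q, Real.cos (2 * Real.pi * a * (c * g : ℕ) / q))
      = fun g : ℕ => if q ∣ g then (q : ℝ) else 0 := by
    funext g
    exact cos_sum q a hq hc g
  rw [e2]
  have e3 := hABM (fun _ => (q : ℝ)) ρ q h0 h1 ⟨|(q : ℝ)|, fun g => le_refl _⟩ hodd
  rw [e3]
  have e4 := hABL ℕ {0} (fun _ => (q : ℝ)) (fun _ g => Real.cos (0 * (g : ℝ))) (ρ ^ q) hpow0 hpow1
    (fun c _ => ⟨1, fun g => Real.abs_cos_le_one _⟩)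
  rw [Finset.sum_singleton] at e4
  have e5 : (fun g : ℕ => ∑ i ∈ ({0} : Finset ℕ), (q : ℝ) * Real.cos (0 * (g : ℝ)))
      = fun _ : ℕ => (q : ℝ) := by
    funext g
    rw [Finset.sum_singleton, zero_mul, Real.cos_zero, mul_one]
  rw [e5] at e4
  rw [e4, (hKER 0 (ρ ^ q) hpow0 hpow1).1, Real.cos_zero]
  have h5 : (1 + ρ ^ q) ≠ 0 := by positivity
  have h6 : (1 + 2 * ρ ^ q * 1 + (ρ ^ q) ^ 2) = (1 + ρ ^ q) ^ 2 := by ring
  rw [h6]
  field_simp
  ring

end Pool.Agent.Helper53.TB
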